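import Pool.Agent.Helper880_ZP.Fn

/-!
# Zilber-Pink near CM points: special subvarieties through the integral points of curves

Let `S` be a Shimura variety, `f : x ↦ f(x)` a curve in `S` over `ℚ` (parametrised by an open part of the line) which is
Hodge generic, and let `x = 0` be a CM point of the curve, or any other point with few periods, for example a cusp. The
Zilber-Pink conjecture for `V = C^N ⊂ S^N`, where `C` is the curve, says that all the points of `V` which are on special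
subvarieties of codimension larger than `N` are in finitely many proper special subvarieties. For general Shimura
varieties and general special subvarieties very little is known about it. We show that the points
`(f(1 / t_1), …, f(1 / t_N))` with **integers** `t_j` in windows (for `N = 1` this means all large integers `t`) are in
**no** special subvariety of codimension larger than `r`, where `r` is the number of the periods at `x = 0` (plus one at the
cusps). If `S` is of abelian type they are in no special subvariety of codimension larger than `r / 2`, and in the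
Siegel modular varieties they are Hodge generic.

**Setting.** Let `V_x` be the variation of Hodge structures over the curve which is given by a representation of the
group of `S`, or any variation of Hodge structures of a family over `ℚ`. The period matrix near `0` with respect to
a de Rham basis adapted to the Hodge filtration and to a Betti basis is `P(x) = C exp (M log x) Z(x)`, where `Z` is a matrix
of G-functions over `ℚ`, `M` is the logarithm of the local monodromy (`M = 0` if `0` is a point of the curve) and `C` is the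
matrix of the central periods. The column `b` of `P` is in `F^(lev b)`, and the columns with `lev b ≥ p` span `F^p`. Up to
one common factor the entries of `C` (and of the period matrix `C₀` of another motive `V_0` over `ℚ`) are
algebraic over a field generated by `s` numbers. For a CM point in the Siegel modular variety of genus `g` we have
`s ≤ g`, and for a product of powers of `s` CM elliptic curves it is `s`. We put `r = s` if `M = 0` and `r = s + 1`
otherwise. Let `𝔤` be a space of infinitesimal symmetries `X` of `Z`: the relations of `Z` over `ℂ[x]` hold to first order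
for `(1 + ε X) Z`. For example this is the Lie algebra of the commutator group of the differential Galois group, and
`𝔪 = C 𝔤 C⁻¹` is the Lie algebra of the derived group of `S` (acting on the Betti cohomology) if the curve is Hodge
generic. Let `𝔊` be the space of the `0 ⊕ X_1 ⊕ … ⊕ X_N`, `X_j ∈ 𝔪`.

The Mumford-Tate Lie algebra `𝔥` of `V = V_0 ⊕ ⨁ V_(t_j)` is the smallest Lie algebra which is rational with respect to the
Betti basis and contains the operator `φ = φ_0 ⊕ ⨁ φ_j` which is `p` on `V^(p, q)`. We consider all rational Lie algebras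
`𝔥` which contain some `φ` of this form which splits the Hodge filtration. The tangent space of `S^N` at the point is
`𝔊 / 𝔊 ∩ Stab F`, and `dim 𝔊 / (𝔊 ∩ (𝔥 + Stab F))` is the codimension in `S^N` of the smallest special subvariety which
contains the point (for `r₀ = 0`; in general it is the relative version for the product with `V_0`).

**Theorem.** Let `D`, `N`, `C₀`, `C` be given. There are `G` (which depends only on the family) and `E` such that for **all**
`t_1, …, t_N` which are distinct, congruent modulo `G`, with `(t_i - t_j + 2)^E ≤ t_j` (for `N = 1` these are all `t ≥ 2^E`):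

1. The codimension of all special subvarieties through the point is at most `r`. Here nothing is assumed on Hodge
   classes, and the Shimura variety (or the variation of Hodge structures) is arbitrary.
2. If the Hodge structure is polarised by an alternating form, the monodromy group is Zariski dense in the symplectic
   group and `2 r + 4 ≤ n` (where `n` is the rank) then `𝔥` contains the Lie algebras of the symplectic groups of all the
   `V_(t_j)`, so that the point is Hodge generic.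

If the Hodge classes are absolute then the Mumford-Tate Lie algebra is defined over a number field (over `ℚ` in fact)
also with respect to the de Rham basis. By the theorem of Deligne this is true for abelian varieties and all
Shimura varieties of abelian type. Let the degree of this field be at most `D`.

3. The codimension of the special subvarieties is at most `r / 2`.
4. If `𝔪` is a Lie algebra without proper subalgebras of codimension at most `r`, generated by the `[φ_j, X]`, `X ∈ 𝔪`, as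
   an ideal, then `𝔥` contains `𝔊`: the point is Hodge generic.
5. In the symplectic case this is true for all `r < n`. It is true in the orthogonal case for `r ≤ n - 3`, `n ≥ 5` if the
   Hodge structure is not of type `(w / 2, w / 2)`.

So no point of the windows is on a special subvariety of codimension larger than `N` if `r ≤ N`, or `r ≤ 2 N + 1` in the
case of abelian type. For `N = 1` this is the statement of the Zilber-Pink conjecture for the points `f(1 / t)` of the
curve, with large integers `t`, without exceptions, for all curves in Shimura varieties of abelian type through CM points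
with at most three periods, for example for abelian varieties isogenous to `E_1^a × E_2^b × E_3^c` with CM elliptic curves.
For curves in the Siegel modular variety of genus `g` (with Zariski dense monodromy) through **any** CM point all the
points `f(1 / t)` with large integers `t` are Hodge generic, because `s ≤ g < 2 g`, and similarly for the tuples in windows.

Proof (`Pool/Agent/Helper880_ZP`). Take a sequence of counterexamples and pass to the ultraproduct `ℂ^*`. As in our theorem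
on `MP_caab05_ag` (`Helper880_R3`), for each `A ∈ 𝔤` and `j` there is a derivation `δ` of `ℂ^*` over `ℚ^*` which moves only
the `j`-th value `Z(1 / t_j)`, in the direction of `A`, and the constants. The ultraproduct of the rational Lie algebras `𝔥`
is stable under `δ`. The new idea is that `δ(P) P⁻¹` is in `𝔥 + Stab F`: if `Q = P (1 + V)` is a basis of eigenvectors of
`φ ∈ 𝔥` then `[δ(Q) Q⁻¹, φ] = δ(φ)` is in `𝔥`, and so are the components of nonzero degree of `δ(Q) Q⁻¹`. Therefore
the codimension of `𝔥 + Stab F` in `𝔊` is at most `r`. If `𝔥` is also rational with respect to the de Rham basis then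
`δ(P) P⁻¹` is in the normaliser of `𝔥`. The elements of the normaliser are in `𝔥 + Stab F`, and so are their complex
conjugates; this gives `r / 2`. For 2 and 5 we show that the subalgebras of small codimension of `sp` and `so` which are
stable under the Hodge operator and complex conjugation are not proper.
-/

set_option autoImplicit false

open PowerSeries Filter
open scoped Matrix

namespace Pool.Agent.Results.MP_d83ecd_ag.IntegralPointsNearCMPoints

/-- an integer polynomial as a power series with rational coefficients -/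
noncomputable def toQ (P : Polynomial ℤ) : PowerSeries ℚ := ((P.map (Int.castRingHom ℚ) : Polynomial ℚ) : PowerSeries ℚ)

/-- the power series `P(u^e)` -/
noncomputable def atPow (e : ℕ) (P : Polynomial ℤ) : PowerSeries ℂ :=
  ((Polynomial.expand ℂ e (P.map (Int.castRingHom ℂ)) : Polynomial ℂ) : PowerSeries ℂ)

/-- the matrices `G_s` over `ℤ[x]` with `T^s y^(s) = G_s y` for all solutions `y` of `T y' = A y` -/
noncomputable def iter {r : ℕ} (T : Polynomial ℤ) (A : Fin r → Fin r → Polynomial ℤ) : ℕ → Fin r → Fin r → Polynomial ℤ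
  | 0 => fun i j => if i = j then 1 else 0
  | s + 1 => fun i j => T * Polynomial.derivative (iter T A s i j) + ∑ l, iter T A s i l * A l j -
      (s : Polynomial ℤ) * (Polynomial.derivative T * iter T A s i j)

/-- The system `T y' = A y` has a fundamental matrix of solutions of the form `u^(-M) ∑_n Φ_n(u) (log u)^n` with
`u^e = x` and convergent power series `Φ_n`: the point `0` is regular or a regular singularity with rational
exponents. -/
def QuasiUnipotent {r : ℕ} (T : Polynomial ℤ) (A : Fin r → Fin r → Polynomial ℤ) : Prop :=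
  ∃ (e M : ℕ) (K : ℝ) (Φ : Matrix (Fin r) (Fin r) (Polynomial (PowerSeries ℂ))), 1 ≤ e ∧ Φ.det ≠ 0 ∧
    (∀ i j n m, ‖coeff m ((Φ i j).coeff n)‖ ≤ K ^ (m + 1)) ∧
    ∀ i j n, atPow e T * (X * PowerSeries.derivative ℂ ((Φ i j).coeff n) +
        ((n : PowerSeries ℂ) + 1) * (Φ i j).coeff (n + 1) - (M : PowerSeries ℂ) * (Φ i j).coeff n) =
      (e : PowerSeries ℂ) * X ^ e * ∑ l, atPow e (A i l) * (Φ l j).coeff n

/-- `h_1, ..., h_r` are G-functions with rational coefficients which solve the differential system `T y' = A y`, with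
the conditions of Siegel and Galochkin, and `0` is a regular point or a regular singularity with rational exponents of
the system. -/
structure GFamily {r : ℕ} (T : Polynomial ℤ) (A : Fin r → Fin r → Polynomial ℤ) (h : Fin r → PowerSeries ℚ) : Prop where
  /-- the denominator is not zero -/
  T_ne : T ≠ 0
  /-- the differential equations -/
  ode : ∀ i, toQ T * PowerSeries.derivative ℚ (h i) = ∑ j, toQ (A i j) * h j
  /-- the coefficients have geometric growth -/
  size : ∃ C : ℝ, ∀ i m, |((coeff m (h i) : ℚ) : ℝ)| ≤ C ^ (m + 1)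
  /-- the common denominators of the coefficients have geometric growth -/
  den : ∃ C : ℝ, ∀ m : ℕ, ∃ d : ℕ, 0 < d ∧ (d : ℝ) ≤ C ^ (m + 1) ∧ ∀ i, ∀ j ≤ m, ∃ a : ℤ, (d : ℚ) * coeff j (h i) = a
  /-- Galochkin's condition: the common denominators of the matrices `G_s / s!` have geometric growth -/
  galochkin : ∃ C : ℝ, ∀ m : ℕ, ∃ d : ℕ, 0 < d ∧ (d : ℝ) ≤ C ^ (m + 1) ∧ ∀ s ≤ m, ∀ i j,
    ∃ H : Polynomial ℤ, (d : Polynomial ℤ) * iter T A s i j = (s.factorial : Polynomial ℤ) * H
  /-- the local exponents at `0` are rational and the singularity is regular -/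
  regular : QuasiUnipotent T A

section family
variable {n : ℕ}

/-- the entries of a matrix -/
def entries (Z : Matrix (Fin n) (Fin n) (PowerSeries ℚ)) : Fin (n * n) → PowerSeries ℚ := fun a =>
  Z (finProdFinEquiv.symm a).1 (finProdFinEquiv.symm a).2

/-- rational matrices as complex matrices -/
def toC (M : Matrix (Fin n) (Fin n) ℚ) : Matrix (Fin n) (Fin n) ℂ := M.map fun x : ℚ => (x : ℂ)

/-- the matrix `Z(1 / t)` -/
noncomputable def value (Z : Matrix (Fin n) (Fin n) (PowerSeries ℚ)) (t : ℕ) : Matrix (Fin n) (Fin n) ℂ :=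
  Matrix.of fun i j => ((∑' k : ℕ, ((coeff k (Z i j) : ℚ) : ℝ) * (1 / (t : ℝ)) ^ k : ℝ) : ℂ)

/-- the period matrix `C exp (M log x) Z(x)` at `x = 1 / t` -/
noncomputable def period (C : Matrix (Fin n) (Fin n) ℂ) (M : Matrix (Fin n) (Fin n) ℚ)
    (Z : Matrix (Fin n) (Fin n) (PowerSeries ℚ)) (t : ℕ) : Matrix (Fin n) (Fin n) ℂ :=
  C * (NormedSpace.exp ((-((Real.log (t : ℝ) : ℝ) : ℂ)) • toC M) * value Z t)

/-- the matrix of power series with complex coefficients -/
noncomputable def overC (Z : Matrix (Fin n) (Fin n) (PowerSeries ℚ)) : Matrix (Fin n) (Fin n) (PowerSeries ℂ) :=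
  Z.map (PowerSeries.map (algebraMap ℚ ℂ))

/-- `X` is an infinitesimal symmetry of `Z`: for all polynomial relations `R(x, Z(x)) = 0` over `ℂ[x]` the derivative of
`R(x, (1 + ε X) Z(x))` at `ε = 0` is zero. -/
def Symmetry (Z : Matrix (Fin n) (Fin n) (PowerSeries ℚ)) (X : Matrix (Fin n) (Fin n) ℂ) : Prop :=
  ∀ R : MvPolynomial (Fin n × Fin n) (Polynomial ℂ), MvPolynomial.aeval (fun b => overC Z b.1 b.2) R = 0 →
    ∑ b, MvPolynomial.aeval (fun b => overC Z b.1 b.2) (MvPolynomial.pderiv b R) *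
      (X.map (PowerSeries.C (R := ℂ)) * overC Z) b.1 b.2 = 0

/-- `𝔤` is closed under commutators -/
def IsLieAlg (𝔤 : Submodule ℂ (Matrix (Fin n) (Fin n) ℂ)) : Prop := ∀ x ∈ 𝔤, ∀ y ∈ 𝔤, x * y - y * x ∈ 𝔤

/-- all proper subalgebras of `𝔤` have codimension larger than `r` -/
def NoSmall (r : ℕ) (𝔤 : Submodule ℂ (Matrix (Fin n) (Fin n) ℂ)) : Prop :=
  ∀ 𝔥 : Submodule ℂ (Matrix (Fin n) (Fin n) ℂ), 𝔥 ≤ 𝔤 → IsLieAlg 𝔥 →
    Module.finrank ℂ 𝔤 ≤ Module.finrank ℂ 𝔥 + r → 𝔤 ≤ 𝔥

/-- up to a common factor the entries of `C₀` and `C` are algebraic over a field generated by `s` numbers -/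
def FewPeriods {r : ℕ} (s : ℕ) (C₀ : Matrix (Fin r) (Fin r) ℂ) (C : Matrix (Fin n) (Fin n) ℂ) : Prop :=
  ∃ (b : Fin s → ℂ) (κ : ℂ), κ ≠ 0 ∧ (∀ i j, IsAlgebraic (IntermediateField.adjoin ℚ (Set.range b)) (κ * C₀ i j)) ∧
    ∀ i j, IsAlgebraic (IntermediateField.adjoin ℚ (Set.range b)) (κ * C i j)

end family

section hodge
variable {B : Type} [Fintype B] [DecidableEq B]

/-- The Hodge filtration `F^p`: it is spanned by the columns `b` of the period matrix with `p ≤ lev b`. -/
def hodge (lev : B → ℤ) (P : Matrix B B ℂ) (p : ℤ) : Submodule ℂ (B → ℂ) :=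
  Submodule.span ℂ {v | ∃ b, p ≤ lev b ∧ v = fun i => P i b}

/-- `φ` splits the Hodge filtration: `F^p` is the sum of the eigenspaces of `φ` for the integral eigenvalues `q ≥ p`. -/
def Splits (lev : B → ℤ) (P φ : Matrix B B ℂ) : Prop :=
  ∀ p, hodge lev P p = Submodule.span ℂ {v | ∃ q : ℤ, p ≤ q ∧ φ *ᵥ v = (q : ℂ) • v}

/-- the matrices which respect the Hodge filtration -/
def stab (lev : B → ℤ) (P : Matrix B B ℂ) : Submodule ℂ (Matrix B B ℂ) where
  carrier := {X | ∀ p, ∀ v ∈ hodge lev P p, X *ᵥ v ∈ hodge lev P p}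
  zero_mem' := by
    intro p v _
    rw [Matrix.zero_mulVec]
    exact Submodule.zero_mem _
  add_mem' := by
    intro X Y hX hY p v hv
    rw [Matrix.add_mulVec]
    exact Submodule.add_mem _ (hX p v hv) (hY p v hv)
  smul_mem' := by
    intro c X hX p v hv
    rw [Matrix.smul_mulVec]
    exact Submodule.smul_mem _ _ (hX p v hv)

/-- the space of matrices is closed under commutators -/
def ClosedBr (W : Submodule ℂ (Matrix B B ℂ)) : Prop := ∀ x ∈ W, ∀ y ∈ W, x * y - y * x ∈ W

/-- the space of matrices is spanned by matrices with rational entries -/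
def Rational (W : Submodule ℂ (Matrix B B ℂ)) : Prop :=
  ∀ X ∈ W, X ∈ Submodule.span ℂ {Y | Y ∈ W ∧ ∀ a b, ∃ q : ℚ, Y a b = q}

/-- The space of matrices is defined over a number field of degree at most `D` with respect to the de Rham basis: it is
spanned by matrices `Y` such that the entries of `P⁻¹ Y P` are in the number field. -/
def DeRhamRational (D : ℕ) (P : Matrix B B ℂ) (W : Submodule ℂ (Matrix B B ℂ)) : Prop :=
  ∃ K : Subfield ℂ, FiniteDimensional ℚ K ∧ Module.finrank ℚ K ≤ D ∧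
    ∀ X ∈ W, X ∈ Submodule.span ℂ {Y | Y ∈ W ∧ ∀ a b, (P⁻¹ * Y * P) a b ∈ K}

/-- the codimension of `𝔊 ∩ W` in `𝔊` is at most `r` -/
def CodimLE (r : ℕ) (𝔊 W : Submodule ℂ (Matrix B B ℂ)) : Prop :=
  Module.finrank ℂ 𝔊 ≤ Module.finrank ℂ (𝔊 ⊓ W : Submodule ℂ (Matrix B B ℂ)) + r

end hodge

section
variable {n N r₀ : ℕ}

/-- `φ` is a Hodge operator of weight `w` (it is `p` on `V^(p, w - p)`, where `V^(w - p, p)` is the complex conjugate of
`V^(p, w - p)`), and the Hodge structure is polarised by the real bilinear form `J`. -/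
structure Polarised (w : ℤ) (J φ : Matrix (Fin n) (Fin n) ℂ) : Prop where
  /-- the form is nondegenerate -/
  unit : IsUnit J
  /-- the form is real -/
  real : J.map star = J
  /-- the Hodge structure has the weight `w` -/
  conj : φ.map star = (w : ℂ) • (1 : Matrix (Fin n) (Fin n) ℂ) - φ
  /-- the form is a morphism of Hodge structures -/
  morphism : φᵀ * J + J * φ = (w : ℂ) • J
  /-- positivity -/
  pos : ∀ v, v ≠ 0 → ∀ a : ℤ, φ *ᵥ v = (a : ℂ) • v → 0 < (Complex.I ^ (2 * a - w) * (v ⬝ᵥ (J *ᵥ star v))).re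

/-- `X` is in the Lie algebra of the isometry group of the form `J` -/
def IsInfinitesimal (J X : Matrix (Fin n) (Fin n) ℂ) : Prop := Xᵀ * J + J * X = 0

/-- the block matrix `x ⊕ X_1 ⊕ … ⊕ X_N` -/
def total (x : Matrix (Fin r₀) (Fin r₀) ℂ) (X : Fin N → Matrix (Fin n) (Fin n) ℂ) :
    Matrix (Fin r₀ ⊕ (Fin n × Fin N)) (Fin r₀ ⊕ (Fin n × Fin N)) ℂ :=
  Matrix.fromBlocks x 0 0 (Matrix.blockDiagonal X)

/-- `C 𝔤 C⁻¹` -/
def conjugate (C : Matrix (Fin n) (Fin n) ℂ) (𝔤 : Submodule ℂ (Matrix (Fin n) (Fin n) ℂ)) :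
    Submodule ℂ (Matrix (Fin n) (Fin n) ℂ) where
  carrier := {Y | ∃ X ∈ 𝔤, Y = C * X * C⁻¹}
  zero_mem' := ⟨0, 𝔤.zero_mem, by rw [Matrix.mul_zero, Matrix.zero_mul]⟩
  add_mem' := by
    rintro _ _ ⟨X, hX, rfl⟩ ⟨Y, hY, rfl⟩
    exact ⟨X + Y, 𝔤.add_mem hX hY, by rw [Matrix.mul_add, Matrix.add_mul]⟩
  smul_mem' := by
    rintro c _ ⟨X, hX, rfl⟩
    exact ⟨c • X, 𝔤.smul_mem c hX, by rw [Matrix.mul_smul, Matrix.smul_mul]⟩

/-- the block matrices `0 ⊕ X_1 ⊕ … ⊕ X_N` with all `X_j` in `𝔪` -/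
def blocks (r₀ N : ℕ) (𝔪 : Submodule ℂ (Matrix (Fin n) (Fin n) ℂ)) :
    Submodule ℂ (Matrix (Fin r₀ ⊕ (Fin n × Fin N)) (Fin r₀ ⊕ (Fin n × Fin N)) ℂ) where
  carrier := {Y | ∃ X : Fin N → Matrix (Fin n) (Fin n) ℂ, (∀ j, X j ∈ 𝔪) ∧ Y = total 0 X}
  zero_mem' := ⟨0, fun _ => 𝔪.zero_mem, by
    unfold total
    rw [Matrix.blockDiagonal_zero, Matrix.fromBlocks_zero]⟩
  add_mem' := by
    rintro _ _ ⟨X, hX, rfl⟩ ⟨Y, hY, rfl⟩
    refine ⟨X + Y, fun j => 𝔪.add_mem (hX j) (hY j), ?_⟩
    unfold total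
    rw [Matrix.fromBlocks_add, ← Matrix.blockDiagonal_add]
    simp only [add_zero]
  smul_mem' := by
    rintro c _ ⟨X, hX, rfl⟩
    refine ⟨c • X, fun j => 𝔪.smul_mem c (hX j), ?_⟩
    unfold total
    rw [Matrix.fromBlocks_smul, ← Matrix.blockDiagonal_smul]
    simp only [smul_zero]

/-- the levels of the columns of the block matrix -/
def levels (N : ℕ) (lev₀ : Fin r₀ → ℤ) (lev : Fin n → ℤ) : Fin r₀ ⊕ (Fin n × Fin N) → ℤ :=
  Sum.elim lev₀ fun p => lev p.1

/-- the smallest ideal of `𝔪` which contains the `[φ, X]`, `X ∈ 𝔪`, is `𝔪` -/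
def Generates (𝔪 : Submodule ℂ (Matrix (Fin n) (Fin n) ℂ)) (φ : Matrix (Fin n) (Fin n) ℂ) : Prop :=
  ∀ I : Submodule ℂ (Matrix (Fin n) (Fin n) ℂ), I ≤ 𝔪 → (∀ x ∈ 𝔪, ∀ y ∈ I, x * y - y * x ∈ I) →
    (∀ x ∈ 𝔪, φ * x - x * φ ∈ I) → 𝔪 ≤ I

/-- the space of matrices is stable under `X ↦ [φ, X]` -/
def StableUnder (φ : Matrix (Fin n) (Fin n) ℂ) (𝔪 : Submodule ℂ (Matrix (Fin n) (Fin n) ℂ)) : Prop :=
  ∀ X ∈ 𝔪, φ * X - X * φ ∈ 𝔪

/-- The conclusion for one tuple of parameters; `P j` is the period matrix of the fibre. -/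
def Good (D r : ℕ) (lev₀ : Fin r₀ → ℤ) (lev : Fin n → ℤ) (C₀ : Matrix (Fin r₀) (Fin r₀) ℂ)
    (𝔪 : Submodule ℂ (Matrix (Fin n) (Fin n) ℂ)) (P : Fin N → Matrix (Fin n) (Fin n) ℂ) : Prop :=
  ∀ (𝔥 : Submodule ℂ (Matrix (Fin r₀ ⊕ (Fin n × Fin N)) (Fin r₀ ⊕ (Fin n × Fin N)) ℂ))
    (φ₀ : Matrix (Fin r₀) (Fin r₀) ℂ) (φ : Fin N → Matrix (Fin n) (Fin n) ℂ),
  Rational 𝔥 → ClosedBr 𝔥 → total φ₀ φ ∈ 𝔥 → Splits lev₀ C₀ φ₀ → (∀ j, Splits lev (P j) (φ j)) →
  -- 1: the codimension of special subvarieties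
  CodimLE r (blocks r₀ N 𝔪) (𝔥 ⊔ stab (levels N lev₀ lev) (total C₀ P)) ∧
  -- 2: symplectic monodromy groups
  (2 * r + 4 ≤ n → ∀ (j : Fin N) (w : ℤ) (J : Matrix (Fin n) (Fin n) ℂ), Polarised w J (φ j) → Jᵀ = -J →
    (∀ X, IsInfinitesimal J X → X ∈ 𝔪) → ∀ X, IsInfinitesimal J X → total 0 (Pi.single j X) ∈ 𝔥) ∧
  (DeRhamRational D (total C₀ P) 𝔥 →
    -- 3: the codimension of special subvarieties
    ((∀ X ∈ 𝔪, X.map star ∈ 𝔪) → (∀ j, StableUnder (φ j) 𝔪) →
      (∀ j, ∃ w : ℤ, (φ j).map star = (w : ℂ) • (1 : Matrix (Fin n) (Fin n) ℂ) - φ j) →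
      CodimLE (r / 2) (blocks r₀ N 𝔪) (𝔥 ⊔ stab (levels N lev₀ lev) (total C₀ P))) ∧
    -- 4: general monodromy groups
    (IsLieAlg 𝔪 → NoSmall r 𝔪 → ∀ j, StableUnder (φ j) 𝔪 → Generates 𝔪 (φ j) →
      ∀ X ∈ 𝔪, total 0 (Pi.single j X) ∈ 𝔥) ∧
    -- 5: symplectic and orthogonal monodromy groups
    ∀ (j : Fin N) (w : ℤ) (J : Matrix (Fin n) (Fin n) ℂ), Polarised w J (φ j) →
      ((Jᵀ = -J ∧ r < n) ∨ (Jᵀ = J ∧ 5 ≤ n ∧ r + 3 ≤ n ∧ φ j ≠ ((w : ℂ) / 2) • (1 : Matrix (Fin n) (Fin n) ℂ))) →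
      (∀ X, IsInfinitesimal J X → X ∈ 𝔪) → ∀ X, IsInfinitesimal J X → total 0 (Pi.single j X) ∈ 𝔥)

end

/-- the numbers `t_j` are distinct and congruent modulo `G`, and `(t_i - t_j + 2)^E ≤ t_j` -/
def InWindow (G E : ℕ) {N : ℕ} (t : Fin N → ℕ) : Prop :=
  Function.Injective t ∧ (∀ i j, t i ≡ t j [MOD G]) ∧ ∀ i j, (t i - t j + 2) ^ E ≤ t j

theorem iter_eq {r : ℕ} (T : Polynomial ℤ) (A : Fin r → Fin r → Polynomial ℤ) (s : ℕ) :
    iter T A s = Pool.Agent.Y120.GH.itm T A s := by
  induction s with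
  | zero => rfl
  | succ s ih =>
    funext i j
    rw [iter, Pool.Agent.Y120.GH.itm, ih]

theorem qu_eq {r : ℕ} {T : Polynomial ℤ} {A : Fin r → Fin r → Polynomial ℤ} (h : QuasiUnipotent T A) :
    Pool.Agent.Y120.GH.QU0 T A := by
  obtain ⟨e, M, K, Φ, he, hdet, hc, heq⟩ := h
  have he0 : e ≠ 0 := by omega
  refine ⟨e, he0, M, K, Φ, hc, fun i j n => ?_, hdet⟩
  have h1 := heq i j n
  simp only [atPow] at h1
  rw [Pool.Agent.Y120.GH.expand_poly he0]
  simp only [Pool.Agent.Y120.GH.expand_poly he0]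
  exact h1

theorem gal_eq {r : ℕ} {T : Polynomial ℤ} {A : Fin r → Fin r → Polynomial ℤ} {h : Fin r → PowerSeries ℚ}
    (hG : GFamily T A h) : ∃ C : ℝ, ∀ m, ∃ d : ℕ, 0 < d ∧ (d : ℝ) ≤ C ^ (m + 1) ∧ ∀ s ≤ m, ∀ i j, ∃ H : Polynomial ℤ,
      (d : Polynomial ℤ) * Pool.Agent.Y120.GH.itm T A s i j = (s.factorial : Polynomial ℤ) * H := by
  obtain ⟨C, hC⟩ := hG.galochkin
  refine ⟨C, fun m => ?_⟩
  obtain ⟨d, h1, h2, h3⟩ := hC m
  refine ⟨d, h1, h2, fun s hs i' j' => ?_⟩
  rw [← iter_eq]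
  exact h3 s hs i' j'

theorem map_eq {n : ℕ} (M : Matrix (Fin n) (Fin n) ℚ) : toC M = Pool.Agent.Y119.HY.cm M := by
  ext i j
  rw [Pool.Agent.Y119.HY.cm_apply]
  rfl

theorem sym_inf {n : ℕ} {Z : Matrix (Fin n) (Fin n) (PowerSeries ℚ)} {X : Matrix (Fin n) (Fin n) ℂ} (h : Symmetry Z X) :
    Pool.Agent.Helper880_R3.Inf Z X := by
  intro R hR
  refine Eq.trans ?_ (h R hR)
  unfold Pool.Agent.Helper880_R3.DX
  rw [map_sum]
  refine Finset.sum_congr rfl fun b _ => ?_
  rw [map_mul, map_sum, Matrix.mul_apply]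
  refine congrArg₂ (· * ·) rfl (Finset.sum_congr rfl fun l _ => ?_)
  rw [map_mul, MvPolynomial.aeval_C, MvPolynomial.aeval_X, Matrix.map_apply, Matrix.map_apply]
  have h1 : algebraMap (Polynomial ℂ) (PowerSeries ℂ) (Polynomial.C (X b.1 l)) = PowerSeries.C (X b.1 l) :=
    Polynomial.coe_C _
  rw [h1]
  rfl

theorem rat_def {B : Type} [Fintype B] [DecidableEq B] {W : Submodule ℂ (Matrix B B ℂ)} (h : Rational W) :
    Pool.Agent.Helper880_ZP.DefOver Pool.Agent.Helper880_ZP.K₀ W := by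
  refine le_antisymm (fun X hX => ?_) (Submodule.span_le.2 fun X hX => hX.1)
  refine Submodule.span_mono ?_ (h X hX)
  rintro Y ⟨hY, hq⟩
  exact ⟨hY, fun a b => Pool.Agent.Helper880_ZP.mem_K₀.2 (hq a b)⟩

theorem dr_def {B : Type} [Fintype B] [DecidableEq B] {D : ℕ} {P : Matrix B B ℂ} (hP : IsUnit P)
    {W : Submodule ℂ (Matrix B B ℂ)} (h : DeRhamRational D P W) :
    ∃ K : Subfield ℂ, FiniteDimensional ℚ K ∧ Module.finrank ℚ K ≤ D ∧
      Pool.Agent.Helper880_ZP.DefOver K (Pool.Agent.Helper880_ZP.dR P W) := by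
  obtain ⟨K, h1, h2, h3⟩ := h
  have hPd := (Matrix.isUnit_iff_isUnit_det _).1 hP
  refine ⟨K, h1, h2, ?_⟩
  refine le_antisymm (fun X hX => ?_) (Submodule.span_le.2 fun X hX => hX.1)
  have h4 := h3 _ hX
  have key : ∀ Y ∈ Submodule.span ℂ {Y | Y ∈ W ∧ ∀ a b, (P⁻¹ * Y * P) a b ∈ K},
      P⁻¹ * Y * P ∈ Submodule.span ℂ {Y | Y ∈ Pool.Agent.Helper880_ZP.dR P W ∧ ∀ a b, Y a b ∈ K} := by
    intro Y hY
    induction hY using Submodule.span_induction with
    | mem Y hY =>
      refine Submodule.subset_span ⟨?_, hY.2⟩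
      show P * (P⁻¹ * Y * P) * P⁻¹ ∈ W
      rw [Pool.Agent.Helper880_ZP.conj_conj' hPd]
      exact hY.1
    | zero =>
      rw [Matrix.mul_zero, Matrix.zero_mul]
      exact Submodule.zero_mem _
    | add Y Z _ _ hY hZ =>
      rw [Matrix.mul_add, Matrix.add_mul]
      exact Submodule.add_mem _ hY hZ
    | smul c Y _ hY =>
      rw [Matrix.mul_smul, Matrix.smul_mul]
      exact Submodule.smul_mem _ _ hY
  have h5 := key _ h4
  rwa [Pool.Agent.Helper880_ZP.conj_conj hPd] at h5

theorem pol_pol {n : ℕ} {w : ℤ} {J φ : Matrix (Fin n) (Fin n) ℂ} (h : Polarised w J φ) :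
    Pool.Agent.Helper880_ZP.Pol w J φ := ⟨h.conj, h.morphism, h.real, h.pos⟩

/-- **The theorem.** -/
theorem result (n : ℕ) (hn : 0 < n) (T : Polynomial ℤ) (A : Fin (n * n) → Fin (n * n) → Polynomial ℤ)
    (Z : Matrix (Fin n) (Fin n) (PowerSeries ℚ)) (hG : GFamily T A (entries Z)) (M : Matrix (Fin n) (Fin n) ℚ)
    (hM : M ^ n = 0) (𝔤 : Submodule ℂ (Matrix (Fin n) (Fin n) ℂ)) (hI : ∀ X ∈ 𝔤, Symmetry Z X)
    (hM𝔤 : ∀ X ∈ 𝔤, toC M * X - X * toC M ∈ 𝔤) :
    ∃ G : ℕ, 1 ≤ G ∧ ∀ (N D r₀ s r : ℕ) (C₀ : Matrix (Fin r₀) (Fin r₀) ℂ) (C : Matrix (Fin n) (Fin n) ℂ)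
      (lev₀ : Fin r₀ → ℤ) (lev : Fin n → ℤ), 0 < N → FewPeriods s C₀ C → s + (if M = 0 then 0 else 1) ≤ r →
      ∃ E : ℕ, ∀ t : Fin N → ℕ, InWindow G E t → IsUnit (total C₀ fun j => period C M Z (t j)) →
        Good D r lev₀ lev C₀ (conjugate C 𝔤) fun j => period C M Z (t j) := by
  obtain ⟨q', C', hG'⟩ := Pool.Agent.Y120.GH.gsys_of hG.ode hG.size hG.den (gal_eq hG)
  rw [map_eq] at hM𝔤
  obtain ⟨G, hG1, h⟩ := Pool.Agent.Helper880_ZP.two hn hG.T_ne hG.ode hG' (qu_eq hG.regular)
    (fun X hX => sym_inf (hI X hX)) hM hM𝔤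
  refine ⟨G, hG1, fun N D r₀ s r C₀ C lev₀ lev hN hfew hs => ?_⟩
  obtain ⟨E, hE⟩ := h N D r₀ s r C₀ C lev₀ lev hN hfew hs
  refine ⟨E, fun t ht hu 𝔥 φ₀ φ h𝔥 hL hφ h0 hsp => ?_⟩
  have hper : (fun j => period C M Z (t j)) = fun j => C * (NormedSpace.exp ((-((Real.log (t j : ℝ) : ℝ) : ℂ)) •
      Pool.Agent.Y119.HY.cm M) * Pool.Agent.Y118.HV.Hv Z (t j)) := by
    funext j
    unfold period
    rw [map_eq]
    rfl
  have hdef := rat_def h𝔥
  have hbar := Pool.Agent.Helper880_ZP.rat_bar hdef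
  obtain ⟨k1, k2⟩ := hE t ht.1 ht.2.1 ht.2.2 (fun j => period C M Z (t j)) hper hu 𝔥 hdef
  obtain ⟨⟨V, hV, hVe⟩, hblk⟩ := Pool.Agent.Helper880_ZP.blk hu h0 hsp
  have hud := (Matrix.isUnit_iff_isUnit_det _).1 hu
  obtain ⟨hEig, hcj⟩ := Pool.Agent.Helper880_ZP.Eig.mk' hud hV hVe
  have hle : 𝔥 ⊔ Pool.Agent.Helper880_ZP.cjS (total C₀ fun j => period C M Z (t j))
      (Pool.Agent.Helper880_ZP.ppS ℂ (Pool.Agent.Helper880_ZP.Lv N lev₀ lev)) ≤
      𝔥 ⊔ stab (levels N lev₀ lev) (total C₀ fun j => period C M Z (t j)) :=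
    sup_le_sup_left (fun X hX p => Pool.Agent.Helper880_ZP.cjS_stab hud hX p) _
  have hc1 := k2 hL ⟨_, hφ, V, hV, hVe⟩
  have hmem : ∀ {𝔪 : Submodule ℂ (Matrix (Fin n) (Fin n) ℂ)} {W : Submodule ℂ (Matrix (Fin n) (Fin n) ℂ)}, W ≤ 𝔪 →
      ∀ j, ∀ X ∈ W, Pool.Agent.Helper880_R3.ib j X ∈ Pool.Agent.Helper880_ZP.blS r₀ N 𝔪 := fun hW j X hX =>
    Pool.Agent.Helper880_ZP.ib_blS (hW hX)
  have hJ : ∀ {J : Matrix (Fin n) (Fin n) ℂ}, IsUnit J → IsUnit J.det := fun h =>
    (Matrix.isUnit_iff_isUnit_det _).1 h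
  refine ⟨?_, ?_, fun hdR => ?_⟩
  · exact hc1.trans (Nat.add_le_add_right (Submodule.finrank_mono (inf_le_inf_left _ hle)) r)
  · intro hr j w J hp hJt hm X hX
    obtain ⟨R, hR⟩ := hblk j
    refine Pool.Agent.Helper880_ZP.concl_sp1 hEig hL hφ hbar (pol_pol hp) hR hJt (hJ hp.unit)
      (hmem (𝔪 := conjugate C 𝔤) (W := Pool.Agent.Helper880_LF.spS J) (fun X hX => hm X hX) j) ?_ hr X hX
    rw [hcj]
    exact hc1
  · have hc2 := k1 (dr_def hu hdR)
    refine ⟨fun hst1 hst2 hw => ?_, fun h𝔪 hNS j hst hgen => ?_, fun j w J hp hcase hm X hX => ?_⟩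
    · have h1 := Pool.Agent.Helper880_ZP.half (𝔪 := conjugate C 𝔤) hEig hL hφ hbar hst1 hst2 hw hc2
      rw [hcj] at h1
      have h2 := Submodule.finrank_mono (inf_le_inf_left (Pool.Agent.Helper880_ZP.blS r₀ N (conjugate C 𝔤)) hle)
      show Module.finrank ℂ (Pool.Agent.Helper880_ZP.blS r₀ N (conjugate C 𝔤)) ≤ Module.finrank ℂ
        (Pool.Agent.Helper880_ZP.blS r₀ N (conjugate C 𝔤) ⊓ (𝔥 ⊔ stab (levels N lev₀ lev) (total C₀ fun j =>
          period C M Z (t j))) : Submodule ℂ _) + r / 2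
      omega
    · exact Pool.Agent.Helper880_ZP.concl_gen hL hφ h𝔪 hNS (hmem le_rfl j) hst hgen hc2
    · obtain ⟨R, hR⟩ := hblk j
      rcases hcase with ⟨hJt, hr⟩ | ⟨hJt, hn5, hr, hne⟩
      · exact Pool.Agent.Helper880_ZP.concl_sp2 hL hφ hbar (pol_pol hp) hR hJt (hJ hp.unit)
          (hmem (𝔪 := conjugate C 𝔤) (W := Pool.Agent.Helper880_LF.spS J) (fun X hX => hm X hX) j) hc2 hr X hX
      · exact Pool.Agent.Helper880_ZP.concl_so hL hφ hbar (pol_pol hp) hR hJt (hJ hp.unit)
          (hmem (𝔪 := conjugate C 𝔤) (W := Pool.Agent.Helper880_LF.spS J) (fun X hX => hm X hX) j) hne hc2 hn5 hr X hX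

end Pool.Agent.Results.MP_d83ecd_ag.IntegralPointsNearCMPoints
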